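import Pool.Agent.H.MP_dc0135_an.B

set_option autoImplicit false

namespace Pool.Agent.Results.MP_dc0135_an.No

open MeasureTheory
open scoped NNReal Pointwise

/-- amenability through the Foelner condition -/
def Folner {G : Type} [Group G] [TopologicalSpace G] [MeasurableSpace G] (μ : Measure G) : Prop :=
  ∀ C : Set G, IsCompact C → ∀ ε : ℝ≥0, 0 < ε → ∃ U : Set G, IsCompact U ∧ 0 < μ U ∧
    ∀ g ∈ C, μ (symmDiff (g • U) U) ≤ ε * μ U

/-- convolution -/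
noncomputable def conv {G : Type} [Group G] [MeasurableSpace G] (μ : Measure G) (f h : G → ℂ)
    (x : G) : ℂ := ∫ y, f y * h (y⁻¹ * x) ∂μ

/-- Segal algebra, given as a Banach space with its inclusion into L1 -/
structure IsSegal {G : Type} [Group G] [TopologicalSpace G] [MeasurableSpace G] (μ : Measure G)
    {S : Type} [NormedAddCommGroup S] [NormedSpace ℂ S] (ι : S →ₗ[ℂ] Lp ℂ 1 μ) : Prop where
  inj : Function.Injective ι
  dense : DenseRange ι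
  ideal : ∀ (h : Lp ℂ 1 μ) (s : S), ∃ t : S, ι t =ᵐ[μ] conv μ h (ι s)
  le : ∀ s, ‖ι s‖ ≤ ‖s‖
  transl : ∃ L : G → S → S, (∀ g s, ι (L g s) =ᵐ[μ] fun x => ι s (g⁻¹ * x)) ∧
    (∀ g s, ‖L g s‖ = ‖s‖) ∧ ∀ s, Continuous fun g => L g s

/-- existence of an approximate diagonal -/
def ApproxDiag {S : Type} [NormedAddCommGroup S] [NormedSpace ℂ S] (m : S → S → S) : Prop :=
  ∀ (F : Finset S) (ε : ℝ), 0 < ε → ∃ a b : ℕ → S, Summable (fun n => ‖a n‖ * ‖b n‖) ∧ ∀ s ∈ F,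
    (∀ B : S →L[ℂ] S →L[ℂ] ℂ, (∀ x y, ‖B x y‖ ≤ ‖x‖ * ‖y‖) →
      ‖∑' n, (B (m s (a n)) (b n) - B (a n) (m (b n) s))‖ ≤ ε) ∧
    ‖m (∑' n, m (a n) (b n)) s - s‖ ≤ ε

open Pool.Agent.H.MP_dc0135_an in
theorem result : ∃ (G : Type) (_ : Group G) (_ : TopologicalSpace G) (_ : IsTopologicalGroup G)
    (_ : LocallyCompactSpace G) (_ : T2Space G) (_ : MeasurableSpace G) (_ : BorelSpace G)
    (μ : Measure G) (_ : μ.IsHaarMeasure), Folner μ ∧
    ∃ (S : Type) (_ : NormedAddCommGroup S) (_ : NormedSpace ℂ S) (_ : CompleteSpace S)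
      (ι : S →ₗ[ℂ] Lp ℂ 1 μ) (m : S → S → S), IsSegal μ ι ∧
      (∀ a b, ι (m a b) =ᵐ[μ] conv μ (ι a) (ι b)) ∧ ¬ ApproxDiag m := by
  refine ⟨G, inferInstance, inferInstance, inferInstance, inferInstance, inferInstance,
    inferInstance, inferInstance, μ, inferInstance, fun C hC ε _ => ?_, S μ ν (0 : K),
    inferInstance, inferInstance, inferInstance, inc μ ν 0, fun a b => cv μ ν 0 (inc μ ν 0 a) b,
    ⟨inc_inj μ ν 0, dense, fun h s => ⟨_, inc_cv μ ν 0 h s⟩, inc_le μ ν 0, fun g s => L μ ν 0 g s,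
      fun g s => tr_ae μ g _, L_norm μ ν 0, L_cont μ ν 0⟩, fun a b => inc_cv μ ν 0 _ b, fun h => ?_⟩
  · obtain ⟨U, a, b, c⟩ := folner C hC
    exact ⟨U, a, b, fun g hg => by simp [c g hg]⟩
  · obtain ⟨f, f1, f2⟩ := bad
    obtain ⟨a, b, h1, h2⟩ := h {f} (1 / 3) (by norm_num)
    obtain ⟨h2, h3⟩ := h2 f (Finset.mem_singleton_self f)
    exact nodiag μ ν 0 f f1 f2 a b h1 h2 h3

end Pool.Agent.Results.MP_dc0135_an.No
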